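import Pool.Agent.P.MP_52ab5a_al.M.Iface

/-! Step MAIN of the open orbit project. -/

namespace Pool.Agent.P.MP_52ab5a_al

open MvPolynomial WM

namespace MainAux

theorem unit_of_dvd {e H c k : ℤ} (he : e = 1 ∨ e = -1) (hH : 0 < H) (hd : H ∣ c)
    (h : e * H = c * k) : k = 1 ∨ k = -1 := by
  obtain ⟨m, rfl⟩ := hd
  have h1 : e = m * k := by
    have : H * (e - m * k) = 0 := by linarith
    rcases mul_eq_zero.1 this with h2 | h2
    · omega
    · linarith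
  have h2 : IsUnit (m * k) := by
    rw [← h1]; rcases he with rfl | rfl <;> simp
  exact Int.isUnit_iff.1 (isUnit_of_mul_isUnit_right h2)

end MainAux

theorem p_MAIN (hPISO : S_PISO) (hMULT : S_MULT) (hDEC : S_DEC) (hCLS : S_CLS) (hCHI : S_CHI)
    (hKAP : S_KAP) (hBR : S_BR) (hADM : S_ADM) (hRIGQ : S_RIGQ) (hGINV : S_GINV) (hGRAD : S_GRAD)
    (hSTRC : S_STRC) (hSTR : S_STR) (hSTEPA : S_STEPA) (hUNIQ : S_UNIQ) (hOCR : S_OCR)
    (hOIND : S_OIND) :
    S_MAIN := by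
  intro Q₀ Q₁ _ _ s t hst n vx Z hZ hO
  classical
  obtain ⟨y, hyZ, hopen⟩ := hO
  have hself : ∀ x, x ∈ orbit s t vx x := fun x =>
    ⟨1, isUnit_one, fun c b h => Matrix.one_apply_ne fun e => h (by rw [e]), fun a => by simp⟩
  have hyN : y ∈ nilVar s t vx := hZ.2.1 (hyZ (hself y))
  have hR : RigM s t vx y :=
    hOIND Q₀ Q₁ (Fin n) s t vx y hst hyN ((hOCR Q₀ Q₁ (Fin n) s t vx y).1 hopen)
  obtain ⟨γ, δ, z, deg, hg, hI, hGr⟩ := hGRAD Q₀ Q₁ (Fin n) s t vx y hR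
  obtain ⟨hRz', hNz', horb⟩ := (hRIGQ Q₀ Q₁ (Fin n) s t vx y).2 γ δ z hg hI
  have hRz := hRz' hR
  have hNz := hNz' hyN
  set w := wtE s t vx deg with hw
  set e : ℤ := (-1) ^ (Finset.univ.filter fun p => wtE s t vx deg p ≤ 0).card with he
  have he1 : e = 1 ∨ e = -1 := neg_one_pow_eq_or ℤ _
  have hK : Additive (kap w z) := (hKAP _ w z).2.2.1
  have hA : ∀ i : Fin n → Q₀, intg (kap w z) (flagBundle s t vx i) = e * flagChi s t vx i z :=
    fun i => hSTEPA Q₀ Q₁ (Fin n) (Fin n) s t vx deg z i hst hRz.1 hGr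
  have hcl : ∀ i : Fin n → Q₀, IsClass fun φ : Fn (Ent s t vx) => intg φ (flagBundle s t vx i) :=
    fun i => (hCLS (Ent s t vx)).2.2.2.2.2.2 (Fin n ×ₗ Fin n) (flagBundle s t vx i)
  have hstr := fun js => hSTR Q₀ Q₁ (Fin n) n s t vx z js hst (Fintype.card_fin n) hNz
  obtain ⟨i₀, H, hH, hχ, -, hdiv⟩ := hstr []
  -- the simple module
  obtain ⟨L, hLs, hLh, hLm, hLk⟩ : ∃ L : WM (Ent s t vx), L.Simple ∧ L.Holo ∧
      intg L.mult (flagBundle s t vx i₀) ≠ 0 ∧ kap w z L ⊥ ⊤ ≠ 0 := by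
    obtain ⟨m, L, hL, -, hsum, -⟩ := (hDEC (Ent s t vx)).1 _ (hcl i₀)
    have h1 := hsum _ hK
    simp only [hA i₀, hχ] at h1
    have h2 : e * H ≠ 0 := by rcases he1 with h | h <;> rw [h] <;> omega
    rw [h1] at h2
    obtain ⟨j, -, hj⟩ := Finset.exists_ne_zero_of_sum_ne_zero h2
    exact ⟨L j, (hL j).1, (hL j).2, left_ne_zero_of_mul hj, right_ne_zero_of_mul hj⟩
  have hkey : ∀ i : Fin n → Q₀, e * flagChi s t vx i z =
      intg L.mult (flagBundle s t vx i) * kap w z L ⊥ ⊤ := by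
    intro i
    obtain ⟨m, M, hM, hinj, hsum, hall⟩ := (hDEC (Ent s t vx)).1 _ (hcl i)
    have h1 := hsum _ hK
    simp only [hA i] at h1
    have hiso : ∀ j, intg (M j).mult (flagBundle s t vx i) * kap w z (M j) ⊥ ⊤ ≠ 0 → Iso L (M j) :=
      fun j hj => hUNIQ Q₀ Q₁ (Fin n) (Fin n) s t vx deg z L (M j) i₀ i hRz hGr hLs hLh (hM j).1
        (hM j).2 hLm (left_ne_zero_of_mul hj) hLk (right_ne_zero_of_mul hj)
    rw [h1]
    by_cases hex : ∃ j, Iso L (M j)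
    · obtain ⟨j, hj⟩ := hex
      rw [Finset.sum_eq_single j]
      · rw [← (hMULT _ L hLs).2.2.1 (M j) hj, hK.iso L ⊥ ⊤ (M j) ⊥ ⊤ hLh (hM j).1.1 hj]
      · intro k _ hk
        by_contra hne
        exact hk (hinj k j ((hPISO _ Set.univ).2.2.1 _ _ _ _ _ _ _ _ _
          ((hPISO _ Set.univ).2.1 _ _ _ _ _ _ (hiso k hne)) hj))
      · simp
    · have h0 : intg L.mult (flagBundle s t vx i) = 0 := by
        by_contra hne
        exact hex (hall L hLs hne)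
      rw [h0, zero_mul]
      exact Finset.sum_eq_zero fun j _ => by
        by_contra hne
        exact hex ⟨j, hiso j hne⟩
  have hLa : Additive L.mult := (hMULT _ L hLs).1
  have hk1 : kap w z L ⊥ ⊤ = 1 ∨ kap w z L ⊥ ⊤ = -1 :=
    MainAux.unit_of_dvd he1 hH (hdiv _ hLa) (by rw [← hkey i₀, hχ])
  have hcoef : ∀ i : Fin n → Q₀, coef s t vx L i = intg L.mult (flagBundle s t vx i) :=
    fun i => (hBR (Fin n ×ₗ Fin n)).1 _ _ _ hLa
  -- the open set
  have hU : OpenIn (orbit s t vx y) Z := by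
    obtain ⟨W, hW, hWe⟩ := hopen
    refine ⟨W, hW, Set.Subset.antisymm (fun x hx => ⟨hyZ hx, (hWe ▸ hx : x ∈ _ \ W).2⟩) ?_⟩
    intro x hx
    rw [hWe]
    exact ⟨hZ.2.1 hx.1, hx.2⟩
  have hgen : ∀ x ∈ orbit s t vx y, ∀ i : Fin n → Q₀, flagChi s t vx i z = flagChi s t vx i x ∧
      (i ∈ types s t vx (Fin n) z ↔ i ∈ types s t vx (Fin n) x) := by
    intro x hx i
    rw [horb] at hx
    obtain ⟨g, hgu, hgd, hgi⟩ := hx
    obtain ⟨d, hd⟩ := (hADM Q₀ Q₁ (Fin n) s t vx).2.2.2.2.2.2.2.2.2.2.2.2.2.2.2.2.2.2.2 g hgu hgd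
    exact ((hGINV Q₀ Q₁ (Fin n) (Fin n) s t vx i).2 g d hd).1 z x hgi
  refine ⟨fun i => flagChi s t vx i z, ⟨L, hLs, ?_, i₀, by simpa [hχ] using hH⟩, fun js => ?_,
    fun i => ⟨_, hU, ⟨y, hself y⟩, fun x hx => (hgen x hx i).1.symm⟩⟩
  · rcases he1 with h1 | h1 <;> rcases hk1 with h2 | h2
    · left; funext i; have := hkey i; rw [h1, h2] at this; rw [hcoef]; linarith
    · right; funext i; have := hkey i; rw [h1, h2] at this; rw [Pi.neg_apply, hcoef]; linarith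
    · right; funext i; have := hkey i; rw [h1, h2] at this; rw [Pi.neg_apply, hcoef]; linarith
    · left; funext i; have := hkey i; rw [h1, h2] at this; rw [hcoef]; linarith
  · refine ⟨_, hU, ⟨y, hself y⟩, fun x hx => ?_⟩
    have h1 : types s t vx (Fin n) x = types s t vx (Fin n) z :=
      Set.ext fun i => (hgen x hx i).2.symm
    obtain ⟨i, H', hH', hχ', hp, -⟩ := hstr js
    simp only [h1]
    refine (hSTRC Q₀ n _ _ i js (fun j hj => ?_) (by simp only [Set.mem_setOf_eq, hχ']; omega) hp).symm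
    by_contra hne
    apply hj
    have h2 : {g : Fin n ×ₗ Fin n → ℂ | Echelon vx j (cols g) ∧
        ∀ a, Fixes (dbl s t vx z a) (cols g)} = ∅ :=
      Set.eq_empty_of_forall_notMem fun g hg => hne ⟨_, hg⟩
    show flagChi s t vx j z = 0
    rw [flagChi, h2, (hBR _).2]
    exact (hCHI _).1

end Pool.Agent.P.MP_52ab5a_al
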