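import Pool.Agent.P.MP_52ab5a_al.O.Iface

/-! The final statement. -/

namespace Pool.Agent.P.MP_52ab5a_al

open MvPolynomial WM

-- deps: MULT DEC CLS CHI KAP BR ADM RIGQ GINV GRAD STRC STR STEPA UNIQ OCR OIND
def S_MAIN : Prop := OOC

end Pool.Agent.P.MP_52ab5a_al
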